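import Pool.Agent.H18.XU.UNA
import Pool.Agent.H17.XW.TJ

/-!
# Exponential time in EQP, version 2: rows UNA and UNL
-/

set_option autoImplicit false

namespace Pool.Agent.H18.XW

open Pool.Agent.H70.OQ Pool.Agent.H66.AV Pool.Agent.H17.XW

theorem una_iff (O : List Bool → Bool) : ∀ (k l : ℕ) (w : List Bool),
    Pool.Agent.H17.XW.Una O k l w ↔ Pool.Agent.H18.XU.Una O k l w := by
  intro k
  induction k with
  | zero => exact fun l w => Iff.rfl
  | succ k ih =>
    intro l w
    exact and_congr_right fun _ => forall_congr' fun v => forall_congr' fun _ => ih (2 * l) (w ++ v)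

theorem pf_UNA : Pool.Agent.H17.XW.T_UNA := fun n k z x O hO =>
  (una_iff O (k + 1) n _).2 (Pool.Agent.H18.XU.una_tbl n k z x O hO)

theorem pf_UNL : Pool.Agent.H17.XW.T_UNL := fun k l w =>
  ⟨w.length + (2 ^ k - 1) * l, fun O O' h hU =>
    (una_iff O' k l w).2 (Pool.Agent.H18.XU.una_congr O O' k l _ w le_rfl h
      ((una_iff O k l w).1 hU))⟩

end Pool.Agent.H18.XW
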